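import Pool.Agent.H104.MC.Eqv

/-!
# The polynomial Freiman-Ruzsa conjecture: improper convex coset progressions, homomorphic images

`Body B` says that `B` is a centrally symmetric convex body, `lat B` is the set of the integer
points of `B`, `hull X` the set of the integer points of the convex hull of `X` (definitions of the
starting file `MP_dd2a7c_co.DimensionFree`), `img ψ H S = ψ(S) + H` as a set of elements of the
group (nothing is assumed about injectivity). `Conc A L` is the conclusion of Q1 for `A` with a
parameter `L` in place of `K`: a centred convex coset progression of dimension at most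
`500 log (2 L)` and volume at most `|A|` has at most `5000 L ^ 5000` translates that cover `A`.

`VData K A X ψ H g`: `X` is a nonempty finite set of integer points of a space of any dimension with
`|X + X| ≤ K |X|` and `|conv X ∩ ℤ ^ d| ≤ K |X|`, `H` is finite, `ψ(X) + H` has at most `K |A|`
ELEMENTS, and at least `|A| / K` elements of `A` are in `g + ψ(X) + H`.

Proof. Let `E` be a Milman ellipsoid of the convex body `B ⊆ ℝ ^ n` (existence: starting library).
By comparing volumes, the integer points of `B` are covered by `33 ^ n` translates of those of `E`,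
and those of `E` by `286 ^ n` translates of those of `B`. For ellipsoids, the Voronoi cell of the
kernel gives the theorem (`MP_dd2a7c_co.ImproperProgressions`, which treats boxes). A set `X` dense
in its convex hull is covered by few translates of a convex progression of dimension `O(log K)` by
the starting theorem; the image of this progression has at most `K ^ C |ψ(X) + H|` elements by
inequalities of Plünnecke and Ruzsa modulo `H`, though its volume may be much larger.
-/

set_option autoImplicit false

namespace Pool.Agent.Results.MP_dd2a7c_co.ConvexProgressions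

open Finset
open scoped Pointwise
open Pool.Agent.Y806.DF Q123.VP H104.MC

universe u v

/-- **Improper convex coset progressions and homomorphic images.**
(1) Let `P = ψ(ℤ^n ∩ B) + H` be a centred convex coset progression of dimension `n` in any abelian
group, as improper as one likes, with `|P|` elements, and `N ≥ |H|` real. Then `P` is covered by
`(2 * 10^8)^n max(1, |P| / N)` translates of a PROPER centred convex coset progression of dimension
`n` and volume at most `N`.
(2) If `|A + A| ≤ K |A|` and `P` is as in (1), `|P| ≤ M |A|`, `|A| ≤ M |A ∩ (g + P)|`, then the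
conclusion of Q1 holds for `A` with `4685824 ^ n M K`, and for the image of `A` under any
homomorphism to any abelian group with `299892736 ^ n M ^ 2 K ^ 6` in place of `K`.
(3) If `|A + A| ≤ K |A|` and `VData K A X ψ H g` (no bound for the dimension or for the volume),
then the conclusion of Q1 holds for `A` with `(2 K) ^ 14000` in place of `K`.
(4) Q1 is equivalent to the statement that there are such `X`, `ψ`, `H`, `g` for each `A`, with
`C K ^ C` in place of `K`.
(5) If `|A + A| ≤ K |A|` and the conclusion of Q1 holds for `A` with `L` in place of `K`, then it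
holds for the image of `A` under any homomorphism to any abelian group, with
`(2 L) ^ 20150 K ^ 6` in place of `K`.
(6) It holds for all homomorphic images of solid sets `D` (sets of integer points of a space of any
dimension that contain with `x` the integer points of the box spanned by `0` and `x`) with
`|D + D| ≤ K |D|`, with `(2 K) ^ 45` in place of `K`. -/
theorem result :
    (∀ (Γ : Type u) [AddCommGroup Γ] (n : ℕ) (B : Set (Fin n → ℝ)) (ψ : (Fin n → ℤ) →+ Γ)
      (H : AddSubgroup Γ) [Finite H] (N : ℝ), Body B → (Nat.card H : ℝ) ≤ N →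
      ∃ (B' : Set (Fin n → ℝ)) (F : Finset Γ), Body B' ∧
        Set.InjOn (fun p : (Fin n → ℤ) × Γ => ψ p.1 + p.2) (lat B' ×ˢ (H : Set Γ)) ∧
        ((lat B').ncard : ℝ) * Nat.card H ≤ N ∧
        (F.card : ℝ) ≤ (2 * 10 ^ 8) ^ n * max 1 ((img ψ H (lat B)).ncard / N) ∧
        ∀ g ∈ img ψ H (lat B), ∃ f ∈ F, ∃ w ∈ lat B', ∃ h ∈ H, g = f + ψ w + h) ∧
    (∀ (G : Type u) (Γ : Type v) [AddCommGroup G] [DecidableEq G] [AddCommGroup Γ] [DecidableEq Γ]
      (φ : G →+ Γ) (K M : ℝ) (A : Finset G), A.Nonempty → ((A + A).card : ℝ) ≤ K * A.card →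
      ∀ (n : ℕ) (B : Set (Fin n → ℝ)) (ψ : (Fin n → ℤ) →+ G) (H : AddSubgroup G) [Finite H],
        Body B → ((img ψ H (lat B)).ncard : ℝ) ≤ M * A.card →
        ∀ g : G, (A.card : ℝ) ≤ M * ({a : G | a ∈ A ∧ a - g ∈ img ψ H (lat B)}.ncard : ℝ) →
          Conc A (4685824 ^ n * M * K) ∧
          Conc (A.image φ) (299892736 ^ n * M ^ 2 * K ^ 6)) ∧
    (∀ (Γ : Type u) [AddCommGroup Γ] [DecidableEq Γ] (K : ℝ) (A : Finset Γ), A.Nonempty →
      ((A + A).card : ℝ) ≤ K * A.card →
      ∀ (d : ℕ) (X : Finset (Fin d → ℤ)) (ψ : (Fin d → ℤ) →+ Γ) (H : AddSubgroup Γ) (g : Γ),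
        VData K A X ψ H g → Conc A ((2 * K) ^ 14000)) ∧
    (PFR.{u} ↔ VolFree.{u}) ∧
    (∀ (G : Type u) (Γ : Type v) [AddCommGroup G] [DecidableEq G] [AddCommGroup Γ] [DecidableEq Γ]
      (φ : G →+ Γ) (K L : ℝ) (A : Finset G), A.Nonempty → ((A + A).card : ℝ) ≤ K * A.card →
      Conc A L → Conc (A.image φ) ((2 * L) ^ 20150 * K ^ 6)) ∧
    (∀ (ι : Type u) [Fintype ι] [DecidableEq ι] (Γ : Type v) [AddCommGroup Γ] [DecidableEq Γ]
      (φ : (ι → ℤ) →+ Γ) (K : ℝ) (D : Finset (ι → ℤ)), Q123.DS.Solid D → D.Nonempty →
      ((D + D).card : ℝ) ≤ K * D.card → Conc (D.image φ) ((2 * K) ^ 45)) := by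
  refine ⟨?_, ?_, ?_, pfr_iff_volFree, ?_, ?_⟩
  · intro Γ _ n B ψ H _ N hB hN
    exact conv_cover hB ψ H hN
  · intro G Γ _ _ _ _ φ K M A hA hK n B ψ H _ hB hP g hg
    exact ⟨conc_conv hB ψ H hA hK hP g hg, conc_image_conv φ hA hK hB ψ H hP g hg⟩
  · intro Γ _ _ K A hA hK d X ψ H g h
    have := h.fin
    exact vol_free hA hK h.ne h.doubling h.dense ψ H h.size g h.meet
  · intro G Γ _ _ _ _ φ K L A hA hK hL
    exact hom_stable φ hA hK hL
  · intro ι _ _ Γ _ _ φ K D hD hne hK
    exact solid_image φ hD hne hK

end Pool.Agent.Results.MP_dd2a7c_co.ConvexProgressions
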