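import Pool.Agent.Q239.RT.PfrEq
import Pool.Agent.Q239.RT.Bdd

/-!
# Homogeneous subsets of sets of small doubling

`φ 0, ..., φ (d-1)` are homomorphisms from an abelian group to a torsion-free group, for instance
the coordinates of `ℤ ^ d` or of `ℤ ^ d × N`. A finite set `B` is homogeneous if for every `k` the
number of the values of `φ k` on the elements of `B` with given values of all `φ j`, `j < k`, is `0`
or a constant `n k`, and the number of the elements of `B` with given values of all the `φ k` is `0`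
or a constant `m`: the tree of the tuples `(φ 0 x, φ 1 x, ...)` has the same number of branches at
all nodes of a level.

Proof of (1), (2): the `n` for which `A` contains a homogeneous subset with sizes `n + 1` form a down-set
`D(A)` of the integer points of an orthant with `|A|` elements, and `D(A) + D(A') ⊆ D(A + A')`,
because `|S + T| ≥ |S| + |T| - 1` in a torsion-free group; a functional inequality of
Prekopa-Leindler type for joins gives a box of `|A| ^ 2 / |D(8A)|` points in `D(A)`.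
Proof of (3): the sumset of two homogeneous trees fibre by fibre, and the chain rule for the entropy
of the sum of two independent uniform elements. (4) uses the starting results on the problem in the
form of `MP_dd2a7c_co.ConvexProgressions` (2), and (5) the starting theorem
`MP_dd2a7c_co.TorsionLogExponent` for groups of bounded exponent.
-/

set_option autoImplicit false

namespace Pool.Agent.Results.MP_dd2a7c_co.HomogeneousSubsets

open Finset
open scoped Pointwise

universe u v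

section defs

variable {G Γ : Type*} [AddCommGroup G] [AddCommGroup Γ] [DecidableEq Γ] {d : ℕ}

/-- the values of `φ k` at the elements of `B` at which `φ j` has the same value as at `b` for all
`j < k` -/
def fibre (φ : Fin d → (G →+ Γ)) (B : Finset G) (b : G) (k : Fin d) : Finset Γ :=
  (B.filter (fun x => ∀ j, j < k → φ j x = φ j b)).image (φ k)

/-- the elements of `B` at which all `φ k` have the same values as at `b` -/
def kfib (φ : Fin d → (G →+ Γ)) (B : Finset G) (b : G) : Finset G :=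
  B.filter (fun x => ∀ k, φ k x = φ k b)

/-- `B` is nonempty and homogeneous with sizes `n` and `m` -/
def Homogeneous (φ : Fin d → (G →+ Γ)) (B : Finset G) (n : Fin d → ℕ) (m : ℕ) : Prop :=
  B.Nonempty ∧ (∀ b ∈ B, ∀ k, (fibre φ B b k).card = n k) ∧ ∀ b ∈ B, (kfib φ B b).card = m

/-- the number of representations of `z` as `x + y` with `x` in `S`, `y` in `T` -/
def rep (S T : Finset Γ) (z : Γ) : ℕ := ((S ×ˢ T).filter (fun p => p.1 + p.2 = z)).card

/-- the Shannon entropy of `x + y` for independent uniform elements `x` of `S` and `y` of `T` -/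
noncomputable def ent (S T : Finset Γ) : ℝ :=
  ∑ z ∈ S + T, Real.negMulLog ((rep S T z : ℝ) / (S.card * T.card))

/-- The conclusion of Q1 with the constant `C`: at most `C K ^ C` translates of a centred convex
coset progression of dimension at most `C log (2K)` and volume at most `|A|` cover `A`. -/
def Concl (A : Finset G) (K C : ℝ) : Prop :=
  ∃ (d : ℕ) (B : Set (Fin d → ℝ)) (ψ : (Fin d → ℤ) →+ G) (H : AddSubgroup G) (T : Finset G),
    (d : ℝ) ≤ C * Real.log (2 * K) ∧
    (Convex ℝ B ∧ IsCompact B ∧ (interior B).Nonempty ∧ ∀ x ∈ B, -x ∈ B) ∧ Finite H ∧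
    {v : Fin d → ℤ | (fun i => (v i : ℝ)) ∈ B}.ncard * Nat.card H ≤ A.card ∧
    (T.card : ℝ) ≤ C * K ^ C ∧
    ∀ a ∈ A, ∃ t ∈ T, ∃ v ∈ {v : Fin d → ℤ | (fun i => (v i : ℝ)) ∈ B}, ∃ h ∈ H, a = t + ψ v + h

end defs

/-- the `k`-th coordinate on `ℤ ^ d` -/
def coord (d : ℕ) (k : Fin d) : (Fin d → ℤ) →+ ℤ := Pi.evalAddMonoidHom (fun _ => ℤ) k

/-- the `k`-th coordinate on `ℤ ^ d × N` -/
def coordN (N : Type) [AddCommGroup N] (d : ℕ) (k : Fin d) : (Fin d → ℤ) × N →+ ℤ :=
  (Pi.evalAddMonoidHom (fun _ => ℤ) k).comp (AddMonoidHom.fst (Fin d → ℤ) N)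

/-- Q1 -/
def Q1 : Prop := ∃ C : ℝ, ∀ (Γ : Type) [AddCommGroup Γ] [DecidableEq Γ] (K : ℝ) (A : Finset Γ),
  A.Nonempty → ((A + A).card : ℝ) ≤ K * A.card → Concl A K C

/-- Q1 for the homogeneous subsets of the groups `ℤ ^ d × N`, `N` finite -/
def Q1Homogeneous : Prop := ∃ C : ℝ, ∀ (N : Type) [AddCommGroup N] [Finite N] [DecidableEq N]
  (d : ℕ) (n : Fin d → ℕ) (m : ℕ) (K : ℝ) (B : Finset ((Fin d → ℤ) × N)),
  Homogeneous (coordN N d) B n m → ((B + B).card : ℝ) ≤ K * B.card → Concl B K C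

/-- Q1 for torsion-free groups -/
def Q1TorsionFree : Prop := ∃ C : ℝ, ∀ (Z : Type) [AddCommGroup Z] [DecidableEq Z],
  (∀ (n : ℕ) (x : Z), n ≠ 0 → n • x = 0 → x = 0) →
  ∀ (K : ℝ) (A : Finset Z), A.Nonempty → ((A + A).card : ℝ) ≤ K * A.card → Concl A K C

/-- Q1 for the homogeneous subsets of the groups `ℤ ^ d` -/
def Q1HomogeneousTorsionFree : Prop := ∃ C : ℝ, ∀ (d : ℕ) (n : Fin d → ℕ) (K : ℝ)
  (B : Finset (Fin d → ℤ)), B.Nonempty → (∀ b ∈ B, ∀ k, (fibre (coord d) B b k).card = n k) →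
    ((B + B).card : ℝ) ≤ K * B.card → Concl B K C

/-- **Homogeneous subsets of all sets of small doubling.**
(1) Let `φ k`, `k < d`, be homomorphisms from `G` to a torsion-free group. Every finite nonempty
`A ⊆ G` with `|A + A| ≤ K |A|` has a homogeneous subset `B` with `|A| ≤ 4 ^ 9 K ^ 17 |B|`, hence
`|B + B| ≤ 4 ^ 9 K ^ 18 |B|`.
(2) If the `φ k` are together injective, `|A| ^ 2 ≤ |8A| |B|`, `|A| ≤ K ^ 8 |B|` and
`|B + B| ≤ K ^ 9 |B|` for a homogeneous subset `B` which does not depend on `K`.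
(3) If `B` is homogeneous with sizes `n`, `m` and `|B + B| ≤ K |B|`, then `|B| = m ∏ n k`, the `φ k`
with `n k ≥ 2` determine on `B` the other ones, there are at most `log K / log (3/2)` of them, the
entropy of the sum of two fibres of level `k` (uniform and independent) exceeds `log (n k)` by a
number which is at least 0 and whose average over the pairs of elements of `B`, summed over all
levels, is at most `log K`, and some fibres `S k` have `∏ |S k + S k| ≤ K ^ 2 ∏ |S k|`.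
(4) Q1 is equivalent to Q1 for the homogeneous subsets of the groups `ℤ ^ d × N`, `N` finite, and
Q1 for torsion-free groups to Q1 for the homogeneous subsets of the groups `ℤ ^ d`.
(5) Q1 holds, with progressions of dimension 0, for all sets with bounded fibres over a kernel of
bounded exponent: if every fibre of `A` has at most `M` elements and the common kernel of the `φ k`
has exponent dividing `r`, then `|A + A| ≤ K |A|` implies that `A` is covered by at most
`(2K) ^ (4100550 (⌊log₂ M⌋ + 1) (⌊log₂ r⌋ + 1))` cosets of a subgroup with at most `|A|` elements.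
(6) The loss in (1) and (2) is a power of `K` in general: there is `A ⊆ ℤ ^ d` with `|A| = d` and
`|A + A| ≤ K |A|` for `K = (d + 1) / 2` whose homogeneous subsets have at most 2 elements. -/
theorem result :
    (∀ (G : Type u) (Γ : Type v) [DecidableEq G] [DecidableEq Γ] [AddCommGroup G] [AddCommGroup Γ]
      [IsAddTorsionFree Γ] (d : ℕ) (φ : Fin d → (G →+ Γ)) (K : ℝ) (A : Finset G), A.Nonempty →
      ((A + A).card : ℝ) ≤ K * A.card →
      ∃ B ⊆ A, ∃ (n : Fin d → ℕ) (m : ℕ), Homogeneous φ B n m ∧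
        (A.card : ℝ) ≤ 4 ^ 9 * K ^ 17 * B.card ∧
        ((B + B).card : ℝ) ≤ 4 ^ 9 * K ^ 18 * B.card) ∧
    (∀ (G : Type u) (Γ : Type v) [DecidableEq G] [DecidableEq Γ] [AddCommGroup G] [AddCommGroup Γ]
      [IsAddTorsionFree Γ] (d : ℕ) (φ : Fin d → (G →+ Γ)), (∀ x, (∀ k, φ k x = 0) → x = 0) →
      ∀ A : Finset G, A.Nonempty → ∃ B ⊆ A, ∃ n : Fin d → ℕ, Homogeneous φ B n 1 ∧
        (A.card : ℝ) ^ 2 ≤ ((8:ℕ) • A).card * B.card ∧
        ∀ K : ℝ, ((A + A).card : ℝ) ≤ K * A.card →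
          (A.card : ℝ) ≤ K ^ 8 * B.card ∧ ((B + B).card : ℝ) ≤ K ^ 9 * B.card) ∧
    (∀ (G : Type u) (Γ : Type v) [DecidableEq G] [DecidableEq Γ] [AddCommGroup G] [AddCommGroup Γ]
      [IsAddTorsionFree Γ] (d : ℕ) (φ : Fin d → (G →+ Γ)) (B : Finset G) (n : Fin d → ℕ) (m : ℕ),
      Homogeneous φ B n m → ∀ K : ℝ, ((B + B).card : ℝ) ≤ K * B.card →
        B.card = m * ∏ k, n k ∧
        (∀ x ∈ B, ∀ y ∈ B, (∀ k, 2 ≤ n k → φ k x = φ k y) → ∀ k, φ k x = φ k y) ∧
        ((univ.filter (fun k => 2 ≤ n k)).card : ℝ) * Real.log (3 / 2) ≤ Real.log K ∧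
        (∀ k, ∀ b ∈ B, ∀ b' ∈ B, Real.log (n k) ≤ ent (fibre φ B b k) (fibre φ B b' k)) ∧
        (∑ k, ∑ b ∈ B, ∑ b' ∈ B, (ent (fibre φ B b k) (fibre φ B b' k) - Real.log (n k)) ≤
          (B.card : ℝ) ^ 2 * Real.log K) ∧
        ∃ c : Fin d → G, (∀ k, c k ∈ B) ∧
          ∏ k, ((fibre φ B (c k) k + fibre φ B (c k) k).card : ℝ) ≤
            K ^ 2 * ∏ k, ((fibre φ B (c k) k).card : ℝ)) ∧
    (Q1 ↔ Q1Homogeneous) ∧
    (Q1TorsionFree ↔ Q1HomogeneousTorsionFree) ∧
    (∀ (G : Type u) (Γ : Type v) [DecidableEq G] [DecidableEq Γ] [AddCommGroup G] [AddCommGroup Γ]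
      [IsAddTorsionFree Γ] (d : ℕ) (φ : Fin d → (G →+ Γ)) (r : ℕ), 0 < r →
      (∀ x, (∀ k, φ k x = 0) → r • x = 0) → ∀ (A : Finset G), A.Nonempty →
      ∀ K : ℝ, ((A + A).card : ℝ) ≤ K * A.card → ∀ M : ℕ,
      (∀ a ∈ A, ∀ k, (fibre φ A a k).card ≤ M) →
      ∃ (H : AddSubgroup G) (T : Finset G), Finite H ∧ Nat.card H ≤ A.card ∧
        (T.card : ℝ) ≤ (2 * K) ^ (4100550 * (Nat.log 2 M + 1) * (Nat.log 2 r + 1)) ∧
        ∀ a ∈ A, ∃ t ∈ T, a - t ∈ H) ∧
    (∀ d : ℕ, 1 ≤ d → ∃ A : Finset (Fin d → ℤ), A.card = d ∧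
      ((A + A).card : ℝ) ≤ ((d : ℝ) + 1) / 2 * A.card ∧
      ∀ B ⊆ A, ∀ (n : Fin d → ℕ) (m : ℕ), Homogeneous (coord d) B n m → B.card ≤ 2) := by
  refine ⟨?_, ?_, ?_, ?_, ?_, ?_, ?_⟩
  · intro G Γ _ _ _ _ _ d φ K A hA hK
    obtain ⟨B, h1, n, m, h2, h3, h4, h5, h6⟩ := Q239.RT.exists_gen φ A hA K hK
    exact ⟨B, h1, n, m, ⟨h2, h3, h4⟩, h5, h6⟩
  · intro G Γ _ _ _ _ _ d φ hφ A hA
    obtain ⟨B, h1, n, h2, h3, h4⟩ := Q239.RT.exists_homogeneousK φ hφ A hA
    refine ⟨B, h1, n, ⟨h2, h3, fun b hb => ?_⟩, h4⟩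
    rw [card_eq_one]
    refine ⟨b, ?_⟩
    ext x
    rw [kfib, mem_filter, mem_singleton]
    constructor
    · rintro ⟨_, h⟩
      exact Q239.RT.emb_injective φ hφ (funext h)
    · rintro rfl
      exact ⟨hb, fun _ => rfl⟩
  · intro G Γ _ _ _ _ _ d φ B n m hB K hK
    exact Q239.RT.rigid_gen φ B n m hB.1 hB.2.1 hB.2.2 K hK
  · refine Iff.trans (show Q1 ↔ Pool.Agent.Y806.DF.PFR.{0} from Iff.rfl)
      (Q239.RT.gen_iff.trans ?_)
    constructor
    · rintro ⟨C, h⟩
      exact ⟨C, fun N _ _ _ d n m K B hB hBB => h N d n m K B hB.1 hB.2.1 hB.2.2 hBB⟩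
    · rintro ⟨C, h⟩
      exact ⟨C, fun N _ _ _ d n m K B hB h1 h2 hBB => h N d n m K B ⟨hB, h1, h2⟩ hBB⟩
  · exact Q239.RT.tf_iff
  · intro G Γ _ _ _ _ _ d φ r hr htor A hA K hK M hM
    exact Q239.RT.bounded_fibres φ r hr htor A hA K hK M hM
  · intro d hd
    obtain ⟨A, h1, h2, h3⟩ := Q239.RT.sharp d hd
    exact ⟨A, h1, h2, fun B hB n m hn => h3 B hB n hn.1 hn.2.1⟩

end Pool.Agent.Results.MP_dd2a7c_co.HomogeneousSubsets
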