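import Pool.Agent.Q115.SDD

set_option autoImplicit false
open scoped Pointwise

universe u v

namespace Pool.Agent.Results.MP_dd2a7c_co.SmallDilates

/-- Freiman-Ruzsa with absolute exponents for sets in a vector space over a field `F` with small
sums of dilates `|A + u A| ≤ K |A|` for all `u` in a set `U` of scalars whose size is only a small
power of `|F|`, or of `|A|`: precisely `|F| < |U| ^ (2 ^ j)` or `|A| ^ 4 < |U| ^ (2 ^ j)`.

With `L = (7 K) ^ (21 ^ j)`: all natural dilates satisfy `|A + n A| ≤ L |A|`, or `|A| ≤ L`;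
`A` is covered by at most `L` cosets of a finite subgroup; by at most `L ^ 5406` cosets of a finite
subgroup of order at most `L ^ 5404 |A|`; by at most `8 L ^ 10812` translates of a centred convex
coset progression of dimension `1` and volume at most `|A|`. If the characteristic of `F` is zero or
larger than `16 L ^ 4` the exponents are `1`, `1`, `2`. If the characteristic is zero, `|A| ≤ L`. -/
theorem result (F : Type v) [Field F] (Γ : Type u) [AddCommGroup Γ] [Module F Γ] [DecidableEq Γ]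
    (K : ℝ) (A : Finset Γ) (hA : A.Nonempty) (U : Finset F) (j : ℕ)
    (hU : ∀ u ∈ U, ((A + A.image (fun a => u • a)).card : ℝ) ≤ K * (A.card : ℝ))
    (hj : (Finite F ∧ Nat.card F < U.card ^ (2 ^ j)) ∨ A.card ^ 4 < U.card ^ (2 ^ j))
    (L : ℝ) (hL : L = (7 * K) ^ (21 ^ j)) :
    ((∀ n : ℕ, ((A + A.image (fun a => n • a)).card : ℝ) ≤ L * A.card) ∨ (A.card : ℝ) ≤ L) ∧
    (∃ (H : AddSubgroup Γ) (T : Finset Γ), Finite H ∧ (T.card : ℝ) ≤ L ∧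
      ∀ a ∈ A, ∃ t ∈ T, a - t ∈ H) ∧
    (∃ (H : AddSubgroup Γ) (T : Finset Γ), Finite H ∧ (Nat.card H : ℝ) ≤ L ^ 5404 * A.card ∧
      (T.card : ℝ) ≤ L ^ 5406 ∧ ∀ a ∈ A, ∃ t ∈ T, a - t ∈ H) ∧
    (∃ (B : Set (Fin 1 → ℝ)) (ψ : (Fin 1 → ℤ) →+ Γ) (H : AddSubgroup Γ) (T : Finset Γ),
      Convex ℝ B ∧ IsCompact B ∧ (interior B).Nonempty ∧ (∀ x ∈ B, -x ∈ B) ∧
      Finite H ∧
      {x : Fin 1 → ℤ | (fun i => (x i : ℝ)) ∈ B}.ncard * Nat.card H ≤ A.card ∧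
      (T.card : ℝ) ≤ 8 * L ^ 10812 ∧
      ∀ a ∈ A, ∃ t ∈ T, ∃ x : Fin 1 → ℤ, (fun i => (x i : ℝ)) ∈ B ∧
        ∃ h ∈ H, a = t + ψ x + h) ∧
    (((ringChar F : ℝ) = 0 ∨ 16 * L ^ 4 < ringChar F) →
      (∃ (H : AddSubgroup Γ) (T : Finset Γ), Finite H ∧ (Nat.card H : ℝ) ≤ 2 * L * A.card ∧
        (T.card : ℝ) ≤ L ∧ ∀ a ∈ A, ∃ t ∈ T, a - t ∈ H) ∧
      (∃ (B : Set (Fin 1 → ℝ)) (ψ : (Fin 1 → ℤ) →+ Γ) (H : AddSubgroup Γ) (T : Finset Γ),
        Convex ℝ B ∧ IsCompact B ∧ (interior B).Nonempty ∧ (∀ x ∈ B, -x ∈ B) ∧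
        Finite H ∧
        {x : Fin 1 → ℤ | (fun i => (x i : ℝ)) ∈ B}.ncard * Nat.card H ≤ A.card ∧
        (T.card : ℝ) ≤ 8 * L ^ 2 ∧
        ∀ a ∈ A, ∃ t ∈ T, ∃ x : Fin 1 → ℤ, (fun i => (x i : ℝ)) ∈ B ∧
          ∃ h ∈ H, a = t + ψ x + h)) ∧
    (ringChar F = 0 → (A.card : ℝ) ≤ L) := by
  rename_i d
  have hd : d = (fun a b => Classical.propDecidable (a = b)) := Subsingleton.elim _ _
  subst hd
  exact Pool.Agent.Q115.SDD.smallDilates F Γ K A hA U j hU hj L hL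

end Pool.Agent.Results.MP_dd2a7c_co.SmallDilates
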